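import Pool.Agent.H52.XH.Targets
import Pool.Agent.H33.HD.VC
import Pool.Agent.H2.HD.UV
import Pool.Agent.H7.HD.CIMI

/-!
# Fullness at points of greater cofinality (row FD of the board xh_modules)
-/

open Ordinal Cardinal Order Set
open scoped ZFSet

universe u

namespace Pool.Agent.H19.XH

open _root_.HD Pool.Agent.H54.WM Pool.Agent.H52.XH

theorem hod_inter {x y : ZFSet.{u}} (hx : HOD x) (hy : HOD y) : HOD (x ∩ y) := by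
  refine hod_iff.2 ⟨?_, fun z hz => (hod_iff.1 hx).2 z (ZFSet.mem_inter.1 hz).1⟩
  refine OD.of_mem (P := fun v => v 0 ∈ x ∧ v 0 ∈ y) ?_ fun v => ZFSet.mem_inter.symm
  exact (DZ.od (R := fun a v => v 0 ∈ a) hx.od (DZ.mem 1 0)).and
    (DZ.od (R := fun a v => v 0 ∈ a) hy.od (DZ.mem 1 0))

theorem clb_gt {γ a : Ordinal.{u}} {C : Set Ordinal.{u}} (hC : Clb γ C) (ha : a < γ) :
    Clb γ {g | a < g} := by
  refine ⟨fun b hb => ?_, fun x _ hx0 h => ?_⟩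
  · obtain ⟨c, h1, h2, -⟩ := hC.unb (max a b) (max_lt ha hb)
    exact ⟨c, h1, (le_max_right _ _).trans_lt h2, (le_max_left _ _).trans_lt h2⟩
  · obtain ⟨z, h1, -, h3⟩ := h 0 hx0
    exact lt_trans h3 h1

theorem pf_FD : Pool.Agent.H52.XH.T_FD.{u} := by
  intro β γ M E hM hMγ hE C hC hg z hz
  have hcof : ℵ₀ < γ.cof := lt_of_le_of_lt hM.aleph0_le hMγ
  obtain ⟨r, hr, hzr⟩ := hz.bd
  obtain ⟨hrβ, z0, hz0, hEr⟩ := mem_XS.1 hr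
  have hXS : ∀ {g : Ordinal.{u}}, g ≤ γ → ∀ {ζ : Ordinal.{u}}, ζ < g → E ζ ∈ XS β E g :=
    fun hg' ζ hζ => mem_XS.2 ⟨hE _ (hζ.trans_le hg'), ζ, hζ, rfl⟩
  set S : Set Ordinal.{u} := {g | g ∈ C ∧ z0 < g ∧ g < γ ∧ g.cof = M} with hS
  have hS1 : ∀ g ∈ S, ∃ h < g, ∀ w ∈ XS β E g, (w ∈ E h ↔ w ∈ z) := by
    rintro g ⟨h1, h2, h3, h4⟩
    obtain ⟨h5, h6, -⟩ := hg g h1 h3 h4
    by_contra hcon
    push Not at hcon
    refine h6 (z ∩ XS β E g) ⟨hod_inter hz.hod h5, fun x hx => (ZFSet.mem_inter.1 hx).2,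
      ⟨r, ?_, fun x hx => hzr (ZFSet.mem_inter.1 hx).1⟩, fun x hx => ?_⟩
    · rw [← hEr]
      exact hXS h3.le h2
    · obtain ⟨-, h, hh, rfl⟩ := mem_XS.1 hx
      obtain ⟨w, hw, hw2⟩ := hcon h hh
      refine ⟨w, hw, fun h7 => ?_⟩
      rw [ZFSet.mem_inter] at h7
      tauto
  choose! h hh1 hh2 using hS1
  have hPS : Pos M.ord γ S := by
    intro C' hC'
    have h1 := Pool.Agent.H7.HD.CIMI.ci γ _ _ hcof
      (Pool.Agent.H7.HD.CIMI.ci γ _ _ hcof hC hC') (clb_gt hC hz0)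
    obtain ⟨b, hb, ⟨⟨h2, h3⟩, h4⟩, -, h5⟩ := Pool.Agent.H33.HD.VC.vc M γ hM hMγ _ h1
    exact ⟨b, hb, h3, ⟨h2, h4, hb, Cardinal.ord_injective h5⟩, h5⟩
  obtain ⟨a, ha, hPa⟩ := Pool.Agent.H2.HD.UV.X M.ord γ hcof S h hPS
    (fun b hb _ _ => hh1 b hb)
  obtain ⟨g1, hg1, hag1, ⟨hg1S, hg1a⟩, -⟩ := hPa _ (clb_gt hC ha)
  have key : ∀ w ∈ XS β E γ, (w ∈ E (h g1) ↔ w ∈ z) := by
    intro w hw
    obtain ⟨hwβ, ζ, hζ, rfl⟩ := mem_XS.1 hw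
    obtain ⟨g2, hg2, hg12, ⟨hg2S, hg2a⟩, -⟩ := hPa _ (clb_gt hC (max_lt hζ hg1))
    have h1 : ζ < g2 := (le_max_left _ _).trans_lt hg12
    have h2 : g1 < g2 := (le_max_right _ _).trans_lt hg12
    have h3 : E (h g1) = E (h g2) := by
      refine (hg g1 hg1S.1 hg1 hg1S.2.2.2).2.2 _ (hXS hg1.le (hh1 g1 hg1S)) _
        (hXS hg1.le (hg2a.trans hag1)) fun w hw => ?_
      rw [hh2 g1 hg1S w hw]
      refine (hh2 g2 hg2S w ?_).symm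
      obtain ⟨h4, ζ', h5, h6⟩ := mem_XS.1 hw
      exact mem_XS.2 ⟨h4, ζ', h5.trans h2, h6⟩
    rw [h3]
    exact hh2 g2 hg2S _ (hXS hg2.le h1)
  obtain ⟨w, hw, hw2⟩ := hz.ne (E (h g1)) (hXS le_rfl ((hh1 g1 hg1S).trans hg1))
  exact hw2 (key w hw)

end Pool.Agent.H19.XH
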