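import Pool.Agent.H52.XH.Targets

/-!
# The image of the collapse of a full set (row IM of the board xh_modules)
-/

open Ordinal Cardinal Order Set
open scoped ZFSet

universe u

namespace Pool.Agent.H19.XH.IM

open _root_.HD Pool.Agent.H54.WM Pool.Agent.H52.XH

theorem oc_mono (hOC : Pool.Agent.H52.XH.T_OC.{u}) (X : ZFSet.{u}) {a b : Ordinal.{u}} (hab : a ≤ b) :
    oc X a ≤ oc X b := by
  obtain ⟨-, h2, h3⟩ := hOC X
  refine le_of_forall_lt fun c hc => ?_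
  obtain ⟨a', ha', hX, rfl⟩ := h3 a c hc
  exact h2 a' b hX (ha'.trans_le hab)

theorem pf_IM (hCP : Pool.Agent.H52.XH.T_CP.{u}) (hOC : Pool.Agent.H52.XH.T_OC.{u}) (hRK : Pool.Agent.H52.XH.T_RK.{u}) (hCD : Pool.Agent.H52.XH.T_CD.{u}) :
    Pool.Agent.H52.XH.T_IM.{u} := by
  intro κ β γ X hG hX hF y
  obtain ⟨-, h2, h3⟩ := hOC X
  obtain ⟨hD1, hD2⟩ := hCD X hX
  have hHX : ∀ x ∈ X, HOD x := fun x hx => (mem_HV.1 (hG.sub hx)).2
  constructor
  · induction y using ZFSet.inductionOn with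
    | _ y ih =>
      intro hy
      have h4 : ∀ y' ∈ y, ∃ x ∈ X, cps X x = y' := fun y' hy' => ih y' hy' (HV_tra hy hy')
      set z : ZFSet.{u} := ZFSet.sep (fun x' => cps X x' ∈ y) X with hz
      have hyH : HOD y := (mem_HV.1 hy).2
      have hzH : HOD z := by
        refine hod_iff.2 ⟨?_, fun x hx => hHX x (ZFSet.mem_sep.1 hx).1⟩
        refine OD.of_mem (P := fun v => v 0 ∈ X ∧ ∃ w, w = cps X (v 0) ∧ w ∈ y) ?_ fun v => ?_
        · refine (DZ.od (R := fun a v => v 0 ∈ a) hX.od (DZ.mem 1 0)).and ?_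
          refine DZ.ex (R := fun w v => w = cps X (v 0) ∧ w ∈ y) ?_
          refine DZ.and ?_ (DZ.od (R := fun a v => v 0 ∈ a) hyH.od (DZ.mem 1 0))
          exact hD2.ren fun n => if n = 0 then 1 else 0
        · rw [hz, ZFSet.mem_sep]
          refine and_congr_right fun _ => ⟨?_, fun h => ⟨_, rfl, h⟩⟩
          rintro ⟨w, rfl, h⟩
          exact h
      obtain ⟨r, hr, hrX, hre⟩ := h3 β y.rank (rank_lt_of_HV hy)
      have hzr : z ⊆ V_ r := by
        intro x hx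
        obtain ⟨hxX, hxy⟩ := ZFSet.mem_sep.1 hx
        rw [ZFSet.mem_vonNeumann]
        have h5 : oc X x.rank < oc X r := by
          rw [← hRK κ β γ X hG x hxX, hre]
          exact ZFSet.rank_lt_of_mem hxy
        exact lt_of_not_ge fun h6 => absurd (oc_mono hOC X h6) (not_le.2 h5)
      have hnc : ∃ x ∈ X, ∀ w ∈ X, w ∈ x ↔ w ∈ z := by
        by_contra hcon
        push Not at hcon
        refine hF z ⟨hzH, fun x hx => (ZFSet.mem_sep.1 hx).1, ⟨r, hrX, hzr⟩, fun x hx => ?_⟩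
        obtain ⟨w, hw, hw2⟩ := hcon x hx
        exact ⟨w, hw, by tauto⟩
      obtain ⟨x, hxX, hx⟩ := hnc
      refine ⟨x, hxX, ZFSet.ext fun z' => ?_⟩
      rw [mem_cps]
      constructor
      · rintro ⟨w, hw, hwX, rfl⟩
        exact (ZFSet.mem_sep.1 ((hx w hwX).1 hw)).2
      · intro hz'
        obtain ⟨w, hwX, rfl⟩ := h4 z' hz'
        exact ⟨w, (hx w hwX).2 (ZFSet.mem_sep.2 ⟨hwX, hz'⟩), hwX, rfl⟩
  · rintro ⟨x, hx, rfl⟩
    refine mem_HV.2 ⟨?_, hD1 x (hHX x hx)⟩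
    rw [ZFSet.mem_vonNeumann, hRK κ β γ X hG x hx]
    exact h2 _ _ (hG.rk x hx) (rank_lt_of_HV (hG.sub hx))

end Pool.Agent.H19.XH.IM
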