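import Pool.Agent.H52.XH.Targets
import Pool.Agent.H7.HD.Clo
import Pool.Agent.H7.HD.LocR
import Pool.Agent.H54.HD.LA
import Pool.Agent.H4.HD.XB
import Pool.Agent.H59.HD.VH

/-!
# The restriction of an extendibility embedding to an ordinal (row JL of the board xh_modules)
-/

open Ordinal Cardinal Order Set
open scoped ZFSet

universe u

namespace Pool.Agent.H19.XH

open _root_.HD Pool.Agent.H54.WM Pool.Agent.H52.XH

/-- the statement which is moved by `j`; the arguments are `δ`, `C`, `δ₁`, `lam`, the graph of `f`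
and the bound -/
def PJ (d C d₁ l F b : ZFSet.{u}) : Prop :=
  ∀ g ∈ d, g ∈ C → (g.IsOrdinal ∧ g.IsOrdinal ∧ Cf g.rank g.rank) → (d₁ ∈ g ∨ d₁ = g) →
    ∀ s ⊆ l, (∀ y ∈ s, ∃ x ∈ g, ZFSet.pair x y ∈ F) →
      (∀ x ∈ g, ∀ y ∈ l, ZFSet.pair x y ∈ F → y ∈ s) → b.IsOrdinal ∧ ODb b.rank s

theorem loc_PJ : Loc.{u} fun v => PJ (v 0) (v 1) (v 2) (v 3) (v 4) (v 5) := by
  refine Loc.allMem (R := fun g v => g ∈ v 1 → (g.IsOrdinal ∧ g.IsOrdinal ∧ Cf g.rank g.rank) →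
    (v 2 ∈ g ∨ v 2 = g) → ∀ s ⊆ v 3, (∀ y ∈ s, ∃ x ∈ g, ZFSet.pair x y ∈ v 4) →
      (∀ x ∈ g, ∀ y ∈ v 3, ZFSet.pair x y ∈ v 4 → y ∈ s) →
        (v 5).IsOrdinal ∧ ODb (v 5).rank s) 0 ?_
  refine (Loc.mem 0 2).imp (((Pool.Agent.H54.HD.LA.X).ren fun _ => 0).imp
    (((Loc.mem 3 0).or (Loc.eq 3 0)).imp ?_))
  refine Loc.allSub (R := fun s v => (∀ y ∈ s, ∃ x ∈ v 0, ZFSet.pair x y ∈ v 5) →
      (∀ x ∈ v 0, ∀ y ∈ v 4, ZFSet.pair x y ∈ v 5 → y ∈ s) →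
        (v 6).IsOrdinal ∧ ODb (v 6).rank s) 4 ?_
  refine Loc.imp ?_ (Loc.imp ?_ ?_)
  · exact Loc.allMem (R := fun y v => ∃ x ∈ v 1, ZFSet.pair x y ∈ v 6) 0
      (Loc.exMem (R := fun x v => ZFSet.pair x (v 0) ∈ v 7) 2 (loc_pmem 0 1 8))
  · exact Loc.allMem (R := fun x v => ∀ y ∈ v 5, ZFSet.pair x y ∈ v 6 → y ∈ v 0) 1
      (Loc.allMem (R := fun y v => ZFSet.pair (v 0) y ∈ v 7 → y ∈ v 1) 6
        ((loc_pmem 1 0 8).imp (Loc.mem 0 2)))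
  · exact (t_RL.{u}).ren fun n => if n = 0 then 0 else 7

/-- `F` is a function -/
def FJ (d l F : ZFSet.{u}) : Prop :=
  ∀ x ∈ d, ∀ y ∈ l, ∀ y' ∈ l, ZFSet.pair x y ∈ F → ZFSet.pair x y' ∈ F → y = y'

theorem loc_FJ : Loc.{u} fun v => FJ (v 0) (v 1) (v 2) := by
  refine Loc.allMem (R := fun x v => ∀ y ∈ v 1, ∀ y' ∈ v 1, ZFSet.pair x y ∈ v 2 →
    ZFSet.pair x y' ∈ v 2 → y = y') 0 ?_
  refine Loc.allMem (R := fun y v => ∀ y' ∈ v 2, ZFSet.pair (v 0) y ∈ v 3 →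
    ZFSet.pair (v 0) y' ∈ v 3 → y = y') 2 ?_
  refine Loc.allMem (R := fun y' v => ZFSet.pair (v 1) (v 0) ∈ v 4 →
    ZFSet.pair (v 1) y' ∈ v 4 → v 0 = y') 3 ?_
  exact (loc_pmem 2 1 5).imp ((loc_pmem 2 0 5).imp (Loc.eq 1 0))

theorem odb_mono {b b' : Ordinal.{u}} (h : b ≤ b') {x : ZFSet.{u}} (hx : ODb b x) : ODb b' x := by
  obtain ⟨N, h1, h2, h3⟩ := hx
  exact ⟨N, h1.trans_le h, h2, h3⟩

theorem odb_od {b : Ordinal.{u}} {x : ZFSet.{u}} (hx : ODb b x) : OD x := by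
  obtain ⟨N, -, h2, h3⟩ := hx
  exact od_iff_nm.2 ⟨N, h2, h3⟩

/-- a common bound for the names -/
theorem bound (δ : Ordinal.{u}) (x : Ordinal.{u} → ZFSet.{u}) (p : Ordinal.{u} → Prop)
    (h : ∀ g < δ, p g → OD (x g)) : ∃ b, ∀ g < δ, p g → ODb b (x g) := by
  classical
  have h1 : ∀ g : Iio δ, ∃ b, p g.1 → ODb b (x g.1) := by
    intro g
    by_cases hp : p g.1
    · obtain ⟨N, h2, h3⟩ := od_iff_nm.1 (h g.1 g.2 hp)
      exact ⟨succ N.a, fun _ => ⟨N, lt_succ _, h2, h3⟩⟩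
    · exact ⟨0, fun h' => absurd h' hp⟩
  choose b hb using h1
  refine ⟨⨆ g, b g, fun g hg hp => odb_mono ?_ (hb ⟨g, hg⟩ hp)⟩
  exact Ordinal.le_iSup b ⟨g, hg⟩

theorem mem_V_rank {x : ZFSet.{u}} {η : Ordinal.{u}} (h : x.rank < η) : x ∈ V_ η :=
  ZFSet.mem_vonNeumann.2 h

theorem pf_JL : T_JL.{u} := by
  intro δ₁ δ lam C f hδ hC hf1 hf2 hH
  obtain ⟨b0, hb0⟩ := bound δ (fun g => os lam (f '' Iio g))
    (fun g => g ∈ C ∧ δ₁ ≤ g.cof.ord) (fun g hg hp => (hH g hp.1 hg hp.2).od)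
  set F : ZFSet.{u} := rs δ lam (fun a b => b = f a) with hF
  set Cz : ZFSet.{u} := os δ C with hCz
  refine ⟨max (max b0 lam) (max F.rank Cz.rank), fun η hη θ j hj => ?_⟩
  have hb0η : b0 < η := ((le_max_left _ _).trans (le_max_left _ _)).trans_lt hη
  have hlη : lam < η := ((le_max_right _ _).trans (le_max_left _ _)).trans_lt hη
  have hFη : F ∈ V_ η := mem_V_rank
    (((le_max_left _ _).trans (le_max_right _ _)).trans_lt hη)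
  have hCη : Cz ∈ V_ η := mem_V_rank
    (((le_max_right _ _).trans (le_max_right _ _)).trans_lt hη)
  have hδη : δ < η := hj.dlt
  have hδ₁η : δ₁ < η := hδ.trans hδη
  obtain ⟨D, hD, hDr, -, -⟩ := Pool.Agent.H4.HD.XB.X δ η θ j hj
  -- the statement is true
  have hP : PJ δ.toZFSet Cz δ₁.toZFSet lam.toZFSet F b0.toZFSet := by
    intro g hg hgC hgc hgd s hs hs1 hs2
    obtain ⟨c, hc, rfl⟩ := mem_toZFSet_iff.1 hg
    obtain ⟨-, -, hgc⟩ := hgc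
    rw [rank_toZFSet] at hgc
    have hcC : c ∈ C := (ord_mem_os.1 hgC).2
    have hdc : δ₁ ≤ c.cof.ord := by
      rw [hgc]
      rcases hgd with h | h
      · exact (toZFSet_mem_toZFSet_iff.1 h).le
      · exact (toZFSet_injective h).le
    refine ⟨ZFSet.isOrdinal_toZFSet b0, ?_⟩
    rw [rank_toZFSet]
    have he : s = os lam (f '' Iio c) := by
      ext z
      rw [mem_os]
      constructor
      · intro hz
        obtain ⟨b, hb, rfl⟩ := mem_toZFSet_iff.1 (hs hz)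
        obtain ⟨x, hx, hxy⟩ := hs1 _ hz
        obtain ⟨ζ, hζ, rfl⟩ := mem_toZFSet_iff.1 hx
        exact ⟨b, hb, ⟨ζ, hζ, (pair_mem_rs.1 hxy).2.2.symm⟩, rfl⟩
      · rintro ⟨b, hb, ⟨ζ, hζ, rfl⟩, rfl⟩
        exact hs2 _ (toZFSet_mem_toZFSet_iff.2 hζ) _ (toZFSet_mem_toZFSet_iff.2 hb)
          (pair_mem_rs.2 ⟨lt_trans hζ hc, hb, rfl⟩)
    rw [he]
    exact hb0 c hc ⟨hcC, hdc⟩
  have hPj := (hj.trl loc_PJ [δ.toZFSet, Cz, δ₁.toZFSet, lam.toZFSet, F, b0.toZFSet] (by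
    simp only [List.mem_cons, List.not_mem_nil, or_false, forall_eq_or_imp, forall_eq]
    exact ⟨Gd.ord.2 hδη, hCη, Gd.ord.2 hδ₁η, Gd.ord.2 hlη, hFη, Gd.ord.2 hb0η⟩)).1 hP
  have hPj' : PJ (j δ.toZFSet) (j Cz) (j δ₁.toZFSet) (j lam.toZFSet) (j F) (j b0.toZFSet) := hPj
  have hFf : FJ δ.toZFSet lam.toZFSet F := by
    intro x hx y hy y' hy' h1 h2
    obtain ⟨x, -, rfl⟩ := mem_toZFSet_iff.1 hx
    obtain ⟨y, -, rfl⟩ := mem_toZFSet_iff.1 hy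
    obtain ⟨y', -, rfl⟩ := mem_toZFSet_iff.1 hy'
    rw [(pair_mem_rs.1 h1).2.2, (pair_mem_rs.1 h2).2.2]
  have hFj : FJ (j δ.toZFSet) (j lam.toZFSet) (j F) := (hj.trl loc_FJ
    [δ.toZFSet, lam.toZFSet, F] (by
      simp only [List.mem_cons, List.not_mem_nil, or_false, forall_eq_or_imp, forall_eq]
      exact ⟨Gd.ord.2 hδη, Gd.ord.2 hlη, hFη⟩)).1 hFf
  have hCl : ClZ (j δ.toZFSet) (j Cz) := by
    have h1 : ClZ δ.toZFSet Cz := by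
      rw [ClZ_iff]
      refine ⟨fun a ha => ?_, fun x hx h0 h => ?_⟩
      · obtain ⟨b, h2, h3, h4⟩ := hC.unb a ha
        exact ⟨b, h2, h3, ord_mem_os.2 ⟨h2, h4⟩⟩
      · refine ord_mem_os.2 ⟨hx, hC.cls x hx h0 fun y hy => ?_⟩
        obtain ⟨z, h2, h3, h4⟩ := h y hy
        exact ⟨z, h2, h3, (ord_mem_os.1 h4).2⟩
    exact (hj.trl (loc_ClZ 0 1) [δ.toZFSet, Cz] (by
      simp only [List.mem_cons, List.not_mem_nil, or_false, forall_eq_or_imp, forall_eq]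
      exact ⟨Gd.ord.2 hδη, hCη⟩)).1 h1
  have hδj : δ.toZFSet ∈ j δ.toZFSet := by
    rw [hj.ord hδη, toZFSet_mem_toZFSet_iff]
    exact hδη.trans hj.Jo_crit
  have hδC : δ.toZFSet ∈ j Cz := by
    refine hCl.2 _ hδj ⟨_, toZFSet_mem_toZFSet_iff.2 hδ, rfl⟩ fun y hy => ?_
    obtain ⟨b, hb, rfl⟩ := mem_toZFSet_iff.1 hy
    obtain ⟨c, h2, h3, h4⟩ := hC.unb b hb
    refine ⟨c.toZFSet, toZFSet_mem_toZFSet_iff.2 h2, toZFSet_mem_toZFSet_iff.2 h3, ?_⟩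
    have h5 := (hj.mem (Gd.ord.2 (h2.trans hδη)) hCη).1 (ord_mem_os.2 ⟨h2, h4⟩)
    rwa [hj.fix c h2] at h5
  have hδc : Cf δ δ := by
    unfold Cf
    rw [hD, hDr.cof_ord]
  set s : ZFSet.{u} := os (Jo j lam) {b | ∃ a < lam, b = Jo j a} with hs
  have hsOD : OD s := by
    have h1 := hPj' δ.toZFSet hδj hδC ⟨ZFSet.isOrdinal_toZFSet δ, ZFSet.isOrdinal_toZFSet δ, by
      rw [rank_toZFSet]; exact hδc⟩ (Or.inl (by
        rw [hj.fix δ₁ hδ]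
        exact toZFSet_mem_toZFSet_iff.2 hδ)) s ?_ ?_ ?_
    · exact odb_od h1.2
    · intro y hy
      obtain ⟨b, hb, -, rfl⟩ := mem_os.1 hy
      rw [hj.ord hlη]
      exact toZFSet_mem_toZFSet_iff.2 hb
    · intro y hy
      obtain ⟨b, hb, ⟨a, ha, rfl⟩, rfl⟩ := mem_os.1 hy
      obtain ⟨ζ, hζ, rfl⟩ := hf2 a ha
      refine ⟨ζ.toZFSet, toZFSet_mem_toZFSet_iff.2 hζ, ?_⟩
      have h2 := (hj.opair (hζ.trans hδη) (ha.trans hlη) hFη).1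
        (pair_mem_rs.2 ⟨hζ, ha, rfl⟩)
      rwa [hj.Jo_fix hζ] at h2
    · intro x hx y hy hxy
      obtain ⟨ζ, hζ, rfl⟩ := mem_toZFSet_iff.1 hx
      have hfl := hf1 ζ hζ
      have h2 := (hj.opair (hζ.trans hδη) (hfl.trans hlη) hFη).1
        (pair_mem_rs.2 ⟨hζ, hfl, rfl⟩)
      rw [hj.Jo_fix hζ] at h2
      have h3 : ζ.toZFSet ∈ j δ.toZFSet := by
        rw [hj.ord hδη, toZFSet_mem_toZFSet_iff]
        exact (hζ.trans hδη).trans hj.Jo_crit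
      have h4 : (Jo j (f ζ)).toZFSet ∈ j lam.toZFSet := by
        rw [hj.ord hlη, toZFSet_mem_toZFSet_iff]
        exact (hj.lt_iff (hfl.trans hlη) hlη).2 hfl
      rw [hFj _ h3 _ hy _ h4 hxy h2]
      exact ord_mem_os.2 ⟨(hj.lt_iff (hfl.trans hlη) hlη).2 hfl, f ζ, hfl, rfl⟩
  set J : Set Ordinal.{u} := {b | b.toZFSet ∈ s} with hJ
  have hJm : ∀ b, b ∈ J ↔ ∃ a < lam, b = Jo j a := by
    intro b
    constructor
    · intro hb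
      exact (ord_mem_os.1 hb).2
    · rintro ⟨a, ha, rfl⟩
      exact ord_mem_os.2 ⟨(hj.lt_iff (ha.trans hlη) hlη).2 ha, a, ha, rfl⟩
  have hJd : DS J := hsOD.ds
  have hn : ∀ a < lam, nth J a (Jo j a) := by
    intro a ha
    refine ⟨(hJm _).2 ⟨a, ha, rfl⟩, Jo j, fun x y hxy hya => ?_, fun x hx => ⟨?_, ?_⟩,
      fun y hy hya => ?_⟩
    · exact (hj.lt_iff ((hxy.trans hya).trans (ha.trans hlη)) (hya.trans (ha.trans hlη))).2 hxy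
    · exact (hJm _).2 ⟨x, hx.trans ha, rfl⟩
    · exact (hj.lt_iff (hx.trans (ha.trans hlη)) (ha.trans hlη)).2 hx
    · obtain ⟨a', ha', rfl⟩ := (hJm _).1 hy
      exact ⟨a', (hj.lt_iff (ha'.trans hlη) (ha.trans hlη)).1 hya, rfl⟩
  have hdb : DO fun w => nth J (w 0) (w 1) := t_DB (fun a _ => a ∈ J) hJd
  refine DO.congr hdb fun w => ?_
  constructor
  · rintro ⟨ha, h1⟩
    rw [h1]
    exact hn _ ha
  · intro h1
    obtain ⟨a', ha', h2⟩ := (hJm _).1 h1.1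
    have h3 := hn a' ha'
    rw [← h2] at h3
    have h4 := (Pool.Agent.H59.HD.VH.thm J).2.1
    have h5 : w 0 = a' := by
      refine le_antisymm (not_lt.1 fun h6 => ?_) (not_lt.1 fun h6 => ?_)
      · exact lt_irrefl _ ((h4 _ _ _ _ h3 h1).1 h6)
      · exact lt_irrefl _ ((h4 _ _ _ _ h1 h3).1 h6)
    rw [h5]
    exact ⟨ha', h2⟩

end Pool.Agent.H19.XH
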