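import Pool.Agent.H52.XH.Targets

/-!
# Almost all sets are full (row KM of the board xh_modules)
-/

open Ordinal Cardinal Order Set
open scoped ZFSet

universe u

namespace Pool.Agent.H19.XH

open _root_.HD Pool.Agent.H54.WM Pool.Agent.H52.XH

/-- the rank of `Z s` is bounded by the ordinal with number `i` -/
def RR (Q : ZFSet.{u}) (Z : ZFSet.{u} → ZFSet.{u}) (s : ZFSet.{u}) (i : Ordinal.{u}) : Prop :=
  ∃ r : Ordinal.{u}, ZFSet.pair i.toZFSet r.toZFSet ∈ Q ∧ Z s ⊆ V_ r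

/-- the element with number `a` is in `Z s` -/
def RA (Q : ZFSet.{u}) (Z : ZFSet.{u} → ZFSet.{u}) (s : ZFSet.{u}) (a : Ordinal.{u}) : Prop :=
  ∃ x, ZFSet.pair a.toZFSet x ∈ Q ∧ x ∈ Z s

theorem dz_RR {Q : ZFSet.{u}} (hQ : OD Q) {Z : ZFSet.{u} → ZFSet.{u}}
    (hZ : DZ fun v => v 1 = Z (v 0)) :
    DZ fun v => (v 1).IsOrdinal ∧ RR Q Z (v 0) (v 1).rank := by
  have h1 : DZ fun v : ℕ → ZFSet.{u} => (v 1).IsOrdinal ∧ ∃ z, z = Z (v 0) ∧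
      ∃ r : ZFSet.{u}, r.IsOrdinal ∧ ZFSet.pair (v 1) r ∈ Q ∧
        ∃ W, (r.IsOrdinal ∧ W = V_ r.rank) ∧ z ⊆ W := by
    refine (DZ.ord 1).and ?_
    refine DZ.ex (R := fun z v => z = Z (v 0) ∧
      ∃ r : ZFSet.{u}, r.IsOrdinal ∧ ZFSet.pair (v 1) r ∈ Q ∧
        ∃ W, (r.IsOrdinal ∧ W = V_ r.rank) ∧ z ⊆ W) ?_
    refine (hZ.ren fun n => if n = 0 then 1 else 0).and ?_
    refine DZ.ex (R := fun r v => r.IsOrdinal ∧ ZFSet.pair (v 2) r ∈ Q ∧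
        ∃ W, (r.IsOrdinal ∧ W = V_ r.rank) ∧ v 0 ⊆ W) ?_
    refine (DZ.ord 0).and ((DZ.od (R := fun q v => ZFSet.pair (v 3) (v 0) ∈ q) hQ
      (loc_pmem 4 1 0).dz).and ?_)
    exact DZ.ex (R := fun W v => ((v 0).IsOrdinal ∧ W = V_ (v 0).rank) ∧ v 1 ⊆ W)
      ((loc_V 1 0).dz.and (Loc.sub 2 0).dz)
  refine h1.congr fun v => and_congr_right fun hv => ?_
  obtain ⟨a, ha⟩ := ord_of hv
  rw [ha, rank_toZFSet]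
  constructor
  · rintro ⟨r, h2, h3⟩
    refine ⟨_, rfl, r.toZFSet, ZFSet.isOrdinal_toZFSet r, h2, _, ⟨ZFSet.isOrdinal_toZFSet r, rfl⟩,
      ?_⟩
    rw [rank_toZFSet]
    exact h3
  · rintro ⟨z, rfl, r, hr, h2, W, ⟨-, rfl⟩, h3⟩
    obtain ⟨b, rfl⟩ := ord_of hr
    rw [rank_toZFSet] at h3
    exact ⟨b, h2, h3⟩

theorem dz_RA {Q : ZFSet.{u}} (hQ : OD Q) {Z : ZFSet.{u} → ZFSet.{u}}
    (hZ : DZ fun v => v 1 = Z (v 0)) :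
    DZ fun v => (v 1).IsOrdinal ∧ RA Q Z (v 0) (v 1).rank := by
  have h1 : DZ fun v : ℕ → ZFSet.{u} => (v 1).IsOrdinal ∧ ∃ z, z = Z (v 0) ∧
      ∃ x ∈ z, ZFSet.pair (v 1) x ∈ Q := by
    refine (DZ.ord 1).and ?_
    refine DZ.ex (R := fun z v => z = Z (v 0) ∧ ∃ x ∈ z, ZFSet.pair (v 1) x ∈ Q) ?_
    refine (hZ.ren fun n => if n = 0 then 1 else 0).and ?_
    refine DZ.exMem (R := fun x v => ZFSet.pair (v 2) x ∈ Q) 0 ?_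
    exact DZ.od (R := fun q v => ZFSet.pair (v 3) (v 0) ∈ q) hQ (loc_pmem 4 1 0).dz
  refine h1.congr fun v => and_congr_right fun hv => ?_
  obtain ⟨a, ha⟩ := ord_of hv
  rw [ha, rank_toZFSet]
  constructor
  · rintro ⟨x, h2, h3⟩
    exact ⟨_, rfl, x, h3, h2⟩
  · rintro ⟨z, rfl, x, h2, h3⟩
    exact ⟨x, h3, h2⟩

theorem pf_KM (hUB : Pool.Agent.H52.XH.T_UB.{u}) (hREG : Pool.Agent.H52.XH.T_REG.{u}) (hCOH : Pool.Agent.H52.XH.T_COH.{u}) (hUNI : Pool.Agent.H52.XH.T_UNI.{u})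
    (hTB : Pool.Agent.H52.XH.T_TB.{u}) : Pool.Agent.H52.XH.T_KM.{u} := by
  intro κ lam β U Q hκ hU hQ hT
  obtain ⟨u1, u2, u3⟩ := hUB κ lam U hκ hU
  obtain ⟨t1, -, -, t4⟩ := hTB β Q hQ.hod
  obtain ⟨Z, hZ1, hZ2⟩ := hUNI (fun s z => Cex (QI β Q s) z) t1
  have hZ : ∀ s, ¬ Ful (QI β Q s) → Cex (QI β Q s) (Z s) := by
    intro s hs
    unfold Ful at hs
    push Not at hs
    obtain ⟨z, hz⟩ := hs
    exact (hZ1 s z hz.hod hz).2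
  have hPk : ∀ s ∈ PkHOD κ lam, ∀ a ∈ s, ∃ a' < lam, a = a'.toZFSet := by
    intro s hs a ha
    have h1 := (mem_toZFSet_iff.1 ((ZFSet.mem_powerset.1 (ZFSet.mem_sep.1 hs).1) ha))
    obtain ⟨a', ha', rfl⟩ := h1
    exact ⟨a', ha', rfl⟩
  have dRR := dz_RR hQ.hod.od hZ2
  have dRA := dz_RA hQ.hod.od hZ2
  have hP : HOD (ZFSet.sep (fun s => ∃ a : Ordinal.{u}, a.toZFSet ∈ s ∧ RR Q Z s a)
      (PkHOD κ lam)) := by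
    refine (u3 (fun s => ∃ a : Ordinal.{u}, a.toZFSet ∈ s ∧ RR Q Z s a) ?_).1
    refine (DZ.exMem (R := fun a v => a.IsOrdinal ∧ RR Q Z (v 0) a.rank) 0 ?_).congr fun v => ?_
    · exact dRR.ren fun n => if n = 0 then 1 else 0
    · constructor
      · rintro ⟨a, h1, h2⟩
        refine ⟨a.toZFSet, h1, ZFSet.isOrdinal_toZFSet a, ?_⟩
        rw [rank_toZFSet]
        exact h2
      · rintro ⟨a, h1, h2, h3⟩
        obtain ⟨b, rfl⟩ := ord_of h2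
        rw [rank_toZFSet] at h3
        exact ⟨b, h1, h3⟩
  have hreg := hREG κ lam U hU (RR Q Z) dRR (hU.fine.up _ hT _ hP (fun s hs => by
    obtain ⟨hs1, hs2⟩ := ZFSet.mem_sep.1 hs
    refine ZFSet.mem_sep.2 ⟨hs1, ?_⟩
    obtain ⟨r, hr, hzr⟩ := (hZ s hs2).bd
    obtain ⟨-, a, ha, hp⟩ := mem_QI.1 hr
    obtain ⟨a', -, rfl⟩ := hPk s hs1 a ha
    exact ⟨a', ha, r, hp, hzr⟩) (fun s hs => (ZFSet.mem_sep.1 hs).1))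
  obtain ⟨i0, hi0, hS1⟩ := hreg
  obtain ⟨s0, hs0⟩ := u2 _ hS1
  obtain ⟨r0, hr0, -⟩ := (ZFSet.mem_sep.1 hs0).2
  have hr0β : r0 < β := ord_mem_HV.1 (ZFSet.pair_mem_prod.1 (hQ.func.1 hr0)).2
  obtain ⟨A, hA, hAlam, hS2⟩ := hCOH κ lam U hκ hU (RA Q Z) dRA
  have hA' : HOD (QI β Q A) := t4 A hA
  -- the sets in `U`
  have pick : ∀ a < lam, ∀ b < lam, ∃ s, s ∈ PkHOD κ lam ∧ Cex (QI β Q s) (Z s) ∧
      Z s ⊆ V_ r0 ∧ (∀ c : Ordinal.{u}, c.toZFSet ∈ s → (RA Q Z s c ↔ c.toZFSet ∈ A)) ∧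
      a.toZFSet ∈ s ∧ b.toZFSet ∈ s := by
    intro a ha b hb
    obtain ⟨s, hs⟩ := u2 _ (u1 _ (u1 _ hT _ hS1) _ (u1 _ hS2 _
      (u1 _ (hU.fine.fine a ha) _ (hU.fine.fine b hb))))
    rw [ZFSet.mem_inter, ZFSet.mem_inter, ZFSet.mem_inter, ZFSet.mem_inter] at hs
    obtain ⟨⟨h1, h2⟩, h3, h4, h5⟩ := hs
    obtain ⟨h6, h7⟩ := ZFSet.mem_sep.1 h1
    obtain ⟨r, hr, hzr⟩ := (ZFSet.mem_sep.1 h2).2
    have hrr : r = r0 := toZFSet_injective (hQ.unique hr hr0)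
    rw [hrr] at hzr
    exact ⟨s, h6, hZ s h7, hzr, (ZFSet.mem_sep.1 h3).2, (ZFSet.mem_sep.1 h4).2,
      (ZFSet.mem_sep.1 h5).2⟩
  have hAV : ∀ x ∈ QI β Q A, x ∈ V_ r0 := by
    intro x hx
    obtain ⟨-, a, ha, hp⟩ := mem_QI.1 hx
    obtain ⟨a0, ha0, rfl⟩ := mem_toZFSet_iff.1 (hAlam ha)
    obtain ⟨s, -, -, hs3, hs4, hs5, -⟩ := pick a0 ha0 a0 ha0
    obtain ⟨x', hx', hx2⟩ := (hs4 a0 hs5).2 ha
    rw [hQ.unique hp hx']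
    exact hs3 hx2
  have hAβ : QI β Q A ∈ HV β := by
    refine mem_HV.2 ⟨?_, hA'⟩
    rw [ZFSet.mem_vonNeumann]
    refine lt_of_le_of_lt (ZFSet.rank_le_iff.2 fun {y} hy => ?_) hr0β
    exact ZFSet.mem_vonNeumann.1 (hAV y hy)
  obtain ⟨a', ha', hpa'⟩ := hQ.onto _ hAβ
  obtain ⟨s, hs1, hs2, hs3, hs4, hs5, -⟩ := pick a' ha' a' ha'
  obtain ⟨w, hw, hw2⟩ := hs2.ne (QI β Q A) (mem_QI.2 ⟨hAβ, _, hs5, hpa'⟩)
  refine hw2 ?_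
  obtain ⟨hwβ, i, hi, hpi⟩ := mem_QI.1 hw
  obtain ⟨i1, hi1, rfl⟩ := hPk s hs1 i hi
  constructor
  · intro hwA
    obtain ⟨-, i', hi', hpi'⟩ := mem_QI.1 hwA
    obtain ⟨i2, hi2, rfl⟩ := mem_toZFSet_iff.1 (hAlam hi')
    obtain ⟨t, -, -, -, ht4, ht5, ht6⟩ := pick i1 hi1 i2 hi2
    obtain ⟨x', hx', hx2⟩ := (ht4 i2 ht6).2 hi'
    rw [← hQ.unique hpi' hx'] at hx2
    have h1 := (ht4 i1 ht5).1 ⟨w, hpi, hx2⟩
    obtain ⟨x'', hx'', hx3⟩ := (hs4 i1 hi).2 h1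
    rw [hQ.unique hpi hx'']
    exact hx3
  · intro hwZ
    exact mem_QI.2 ⟨hwβ, _, (hs4 i1 hi).1 ⟨w, hpi, hwZ⟩, hpi⟩

end Pool.Agent.H19.XH
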