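import Pool.Agent.H52.XH.Targets

/-!
# The rank of the collapse (row RK of the board xh_modules)
-/

open Ordinal Cardinal Order Set
open scoped ZFSet

universe u

namespace Pool.Agent.H19.XH

open _root_.HD Pool.Agent.H54.WM Pool.Agent.H52.XH

theorem oc_mono (hOC : Pool.Agent.H52.XH.T_OC.{u}) (X : ZFSet.{u}) {a b : Ordinal.{u}} (hab : a ≤ b) :
    oc X a ≤ oc X b := by
  obtain ⟨-, h2, h3⟩ := hOC X
  refine le_of_forall_lt fun c hc => ?_
  obtain ⟨a', ha', hX, rfl⟩ := h3 a c hc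
  exact h2 a' b hX (ha'.trans_le hab)

theorem pf_RK (hOC : Pool.Agent.H52.XH.T_OC.{u}) : Pool.Agent.H52.XH.T_RK.{u} := by
  intro κ β γ X hG
  obtain ⟨-, h2, h3⟩ := hOC X
  intro x
  induction x using ZFSet.inductionOn with
  | _ x ih =>
    intro hx
    apply le_antisymm
    · rw [ZFSet.rank_le_iff]
      intro y' hy'
      obtain ⟨y, hy, hyX, rfl⟩ := mem_cps.1 hy'
      rw [ih y hy hyX]
      exact h2 _ _ (hG.rk y hyX) (ZFSet.rank_lt_of_mem hy)
    · refine le_of_forall_lt fun c hc => ?_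
      obtain ⟨a, ha, haX, rfl⟩ := h3 _ c hc
      obtain ⟨y, hy, hyX, hay⟩ := hG.sup x hx a ha haX
      calc oc X a ≤ oc X y.rank := oc_mono hOC X hay
        _ = (cps X y).rank := (ih y hy hyX).symm
        _ < (cps X x).rank := ZFSet.rank_lt_of_mem (mem_cps.2 ⟨y, hy, hyX, rfl⟩)

end Pool.Agent.H19.XH
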